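import Mathlib
import Pool.Agent.H89.CW4

set_option autoImplicit false

namespace Pool.Agent.Results.MP_3b2897_nt.Weak

open Filter Topology

/-- total number of binary digits of the integers `1, ..., n` -/
def digitsUpTo (n : ℕ) : ℕ := ∑ m ∈ Finset.range (n + 1), Nat.size m

/-- the binary Champernowne constant: the binary digits of `m` end at place `digitsUpTo m` -/
noncomputable def champ : ℝ := ∑' m : ℕ, (m : ℝ) / 2 ^ digitsUpTo m

/-- the doubling orbit -/
noncomputable def orbit (n : ℕ) : ℝ := Int.fract ((2 : ℝ) ^ n * champ)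

/-- distance to the nearest integer -/
noncomputable def nint (t : ℝ) : ℝ := |t - round t|

open Classical in
/-- the pair count -/
noncomputable def pairCount (N : ℕ) (s β : ℝ) : ℕ :=
  ((Finset.Icc 1 N ×ˢ Finset.Icc 1 N).filter fun p : ℕ × ℕ =>
    p.1 ≠ p.2 ∧ nint (orbit p.1 - orbit p.2) ≤ s * (N : ℝ) ^ (-β)).card

theorem result : ∃ β : ℝ, 0 < β ∧ β < 1 ∧ ∀ s : ℝ, 0 ≤ s →
    Tendsto (fun N : ℕ => (N : ℝ) ^ (β - 2) * pairCount N s β) atTop (𝓝 (2 * s)) :=
  ⟨1 / 16, by norm_num, by norm_num, fun s hs => Pool.Agent.H89.CW.main s hs⟩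

end Pool.Agent.Results.MP_3b2897_nt.Weak
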